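import Mathlib

/-!
# Local search for the intersection of `k` matroids: exchanges of bounded size give `k / 2 + ε` (helper91)
-/

set_option autoImplicit false
set_option linter.unusedSectionVars false
set_option linter.dupNamespace false

namespace Pool.Agent.Helper91.LS

variable {E : Type} [Fintype E] [DecidableEq E]

/-- Independent sets of a matroid: closed under subsets, augmentation. -/
structure Ind (I : Finset E → Prop) : Prop where
  sub : ∀ A B : Finset E, I B → A ⊆ B → I A
  aug : ∀ A B : Finset E, I A → I B → A.card < B.card → ∃ e ∈ B, e ∉ A ∧ I (insert e A)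

theorem Ind.ext {I : Finset E → Prop} (h : Ind I) {A B : Finset E} (hA : I A) (hB : I B) :
    ∃ T : Finset E, T ⊆ B \ A ∧ I (A ∪ T) ∧ B.card ≤ A.card + T.card := by
  classical
  obtain ⟨T, hT, hmax⟩ := Finset.exists_max_image
    ((B \ A).powerset.filter fun T => I (A ∪ T)) Finset.card
    ⟨∅, by simpa using hA⟩
  rw [Finset.mem_filter, Finset.mem_powerset] at hT
  refine ⟨T, hT.1, hT.2, ?_⟩
  by_contra hlt
  rw [not_le] at hlt
  have hdis : Disjoint A T := by
    rw [Finset.disjoint_left]
    intro x hx hxT
    exact (Finset.mem_sdiff.1 (hT.1 hxT)).2 hx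
  obtain ⟨e, heB, heA, he⟩ := h.aug (A ∪ T) B hT.2 hB (by
    rw [Finset.card_union_of_disjoint hdis]
    exact hlt)
  rw [Finset.mem_union, not_or] at heA
  have h1 := hmax (insert e T) (by
    rw [Finset.mem_filter, Finset.mem_powerset]
    refine ⟨Finset.insert_subset (Finset.mem_sdiff.2 ⟨heB, heA.1⟩) hT.1, ?_⟩
    rwa [Finset.union_insert])
  rw [Finset.card_insert_of_notMem heA.2] at h1
  omega

theorem Ind.contract {I : Finset E → Prop} (h : Ind I) (U : Finset E) :
    Ind fun J => Disjoint J U ∧ I (J ∪ U) where
  sub := fun A B hB hAB => ⟨Finset.disjoint_of_subset_left hAB hB.1,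
    h.sub _ _ hB.2 (Finset.union_subset_union hAB subset_rfl)⟩
  aug := fun A B hA hB hlt => by
    obtain ⟨e, he, heA, hi⟩ := h.aug (A ∪ U) (B ∪ U) hA.2 hB.2 (by
      rw [Finset.card_union_of_disjoint hA.1, Finset.card_union_of_disjoint hB.1]
      omega)
    rw [Finset.mem_union, not_or] at heA
    have heB : e ∈ B := by
      rcases Finset.mem_union.1 he with h1 | h1
      · exact h1
      · exact absurd h1 heA.2
    refine ⟨e, heB, heA.1, ?_, ?_⟩
    · rw [Finset.disjoint_insert_left]
      exact ⟨heA.2, hA.1⟩
    · rwa [Finset.insert_union]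

/-- The conclusion: a small improving exchange. -/
def Imp {k : ℕ} (I : Fin k → Finset E → Prop) (B S : Finset E) (s : ℕ) : Prop :=
  ∃ X : Finset E, X ⊆ S ∧ X.card ≤ s ∧ ∃ W : Finset E, W ⊆ B ∧ W.card < X.card ∧
    ∀ l, I l ((B \ W) ∪ X)

/-- `LS k d s`: local search with exchanges of size `s` gives `k / 2 + d`. -/
def LS (k : ℕ) (d : ℝ) (s : ℕ) : Prop :=
  ∀ (E : Type) [Fintype E] [DecidableEq E] (I : Fin k → Finset E → Prop), (∀ l, Ind (I l)) →
    ∀ B S : Finset E, Disjoint B S → (∀ l, I l B) → (∀ l, I l S) →
      ((k : ℝ) / 2 + d) * B.card < S.card → Imp I B S s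

/-- The data of one step. -/
theorem step_data {k : ℕ} (I : Fin k → Finset E → Prop) (hI : ∀ l, Ind (I l)) {B S : Finset E}
    (hBS : Disjoint B S) (hB : ∀ l, I l B) (hS : ∀ l, I l S) {s : ℕ} (hs : 2 ≤ s)
    (hno : ¬ Imp I B S s) :
    ∃ (P : Fin k → Finset E) (U : Finset E) (Y : Fin k → Finset E),
      (∀ l, B ⊆ P l) ∧ (∀ l, P l ⊆ B ∪ S) ∧ (∀ l, I l (P l)) ∧ U ⊆ S ∧
      (∀ e ∈ U, ∃ l, e ∉ P l ∧ ∀ m, m ≠ l → e ∈ P m) ∧
      (∀ l, Y l ⊆ B) ∧ (∀ l, (Y l).card = (U.filter fun e => e ∉ P l).card) ∧
      (∀ l, I l ((B \ Y l) ∪ U)) ∧ (∀ l m, l ≠ m → Disjoint (Y l) (Y m)) ∧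
      2 * S.card ≤ U.card + k * B.card := by
  classical
  -- the sets `P l`
  have hP : ∀ l, ∃ P : Finset E, B ⊆ P ∧ P ⊆ B ∪ S ∧ I l P ∧ S.card ≤ P.card := by
    intro l
    obtain ⟨T, hT, hi, hc⟩ := (hI l).ext (hB l) (hS l)
    refine ⟨B ∪ T, Finset.subset_union_left, ?_, hi, ?_⟩
    · exact Finset.union_subset_union subset_rfl (hT.trans Finset.sdiff_subset)
    · rw [Finset.card_union_of_disjoint]
      · exact hc
      · rw [Finset.disjoint_left]
        intro x hx hxT
        exact (Finset.mem_sdiff.1 (hT hxT)).2 hx
  choose P hBP hPU hPi hPc using hP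
  let cf : E → ℕ := fun e => (Finset.univ.filter fun l => e ∉ P l).card
  have hcf1 : ∀ e ∈ S, 1 ≤ cf e := by
    intro e he
    by_contra h0
    have h1 : cf e = 0 := by omega
    apply hno
    refine ⟨{e}, by simpa using he, by simp; omega, ∅, Finset.empty_subset _, by simp, fun l => ?_⟩
    have h2 : e ∈ P l := by
      by_contra h3
      have : l ∈ (Finset.univ.filter fun l => e ∉ P l) := by simp [h3]
      rw [Finset.card_eq_zero.1 h1] at this
      exact absurd this (Finset.notMem_empty _)
    refine (hI l).sub _ _ (hPi l) ?_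
    rw [Finset.sdiff_empty]
    exact Finset.union_subset (hBP l) (by simpa using h2)
  have hDcard : ∀ l, (S.filter fun e => e ∉ P l).card ≤ B.card := by
    intro l
    have h1 : (S.filter fun e => e ∉ P l).card + (S.filter fun e => e ∈ P l).card = S.card := by
      rw [add_comm]
      exact Finset.card_filter_add_card_filter_not _
    have h2 : (P l).card ≤ B.card + (S.filter fun e => e ∈ P l).card := by
      have h3 : P l ⊆ B ∪ S.filter fun e => e ∈ P l := by
        intro x hx
        rcases Finset.mem_union.1 (hPU l hx) with h | h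
        · exact Finset.mem_union_left _ h
        · exact Finset.mem_union_right _ (Finset.mem_filter.2 ⟨h, hx⟩)
      exact (Finset.card_le_card h3).trans (Finset.card_union_le _ _)
    have h3 := hPc l
    omega
  have hsum : ∑ e ∈ S, cf e ≤ k * B.card := by
    have h1 : ∑ e ∈ S, cf e = ∑ l : Fin k, (S.filter fun e => e ∉ P l).card := by
      have h2 : ∀ e, cf e = ∑ l : Fin k, if e ∉ P l then 1 else 0 := by
        intro e
        simp only [cf]
        rw [Finset.card_filter]
      rw [Finset.sum_congr rfl fun e _ => h2 e, Finset.sum_comm]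
      refine Finset.sum_congr rfl fun l _ => ?_
      rw [Finset.card_filter]
    rw [h1]
    refine (Finset.sum_le_sum fun l _ => hDcard l).trans ?_
    rw [Finset.sum_const, Finset.card_univ, Fintype.card_fin, smul_eq_mul]
  set U : Finset E := S.filter fun e => cf e = 1 with hUdef
  have hU : 2 * S.card ≤ U.card + ∑ e ∈ S, cf e := by
    have h1 : U.card = ∑ e ∈ S, if cf e = 1 then 1 else 0 := by
      rw [hUdef, Finset.card_filter]
    rw [h1, ← Finset.sum_add_distrib, mul_comm, ← smul_eq_mul, ← Finset.sum_const]
    refine Finset.sum_le_sum fun e he => ?_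
    have := hcf1 e he
    split_ifs with h
    · omega
    · omega
  have hl : ∀ e ∈ U, ∃ l : Fin k, e ∉ P l ∧ ∀ m, m ≠ l → e ∈ P m := by
    intro e he
    have h1 : cf e = 1 := (Finset.mem_filter.1 he).2
    simp only [cf] at h1
    rw [Finset.card_eq_one] at h1
    obtain ⟨l, hl⟩ := h1
    refine ⟨l, ?_, fun m hm => ?_⟩
    · have : l ∈ (Finset.univ.filter fun l => e ∉ P l) := by rw [hl]; simp
      exact (Finset.mem_filter.1 this).2
    · by_contra h2
      have : m ∈ (Finset.univ.filter fun l => e ∉ P l) := by simp [h2]
      rw [hl, Finset.mem_singleton] at this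
      exact hm this
  have hUS : U ⊆ S := Finset.filter_subset _ _
  -- the sets `Y l`
  have hY : ∀ l, ∃ Y : Finset E, Y ⊆ B ∧ Y.card = (U.filter fun e => e ∉ P l).card ∧
      I l ((B \ Y) ∪ (U ∪ S.filter fun e => e ∈ P l)) ∧
      ((B \ Y) ∪ (U ∪ S.filter fun e => e ∈ P l)).card = (P l).card := by
    intro l
    set A : Finset E := U ∪ S.filter fun e => e ∈ P l with hA
    have hAS : A ⊆ S := Finset.union_subset hUS (Finset.filter_subset _ _)
    have hAi : I l A := (hI l).sub _ _ (hS l) hAS
    have hAc : A.card ≤ (P l).card := (Finset.card_le_card hAS).trans (hPc l)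
    obtain ⟨T0, hT0, hi0, hc0⟩ := (hI l).ext hAi (hPi l)
    obtain ⟨T, hTT, hTc⟩ := Finset.exists_subset_card_eq
      (show (P l).card - A.card ≤ T0.card by omega)
    have hTB : T ⊆ B := by
      intro x hx
      have h1 := Finset.mem_sdiff.1 (hT0 (hTT hx))
      rcases Finset.mem_union.1 (hPU l h1.1) with h | h
      · exact h
      · exact absurd (Finset.mem_union_right _ (Finset.mem_filter.2 ⟨h, h1.1⟩)) h1.2
    have hAT : Disjoint T A := by
      rw [Finset.disjoint_left]
      intro x hx hxA
      exact Finset.disjoint_left.1 hBS (hTB hx) (hAS hxA)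
    have hBT : B \ (B \ T) = T := by
      rw [Finset.sdiff_sdiff_eq_self hTB]
    refine ⟨B \ T, Finset.sdiff_subset, ?_, ?_, ?_⟩
    · have h1 : (B \ T).card = B.card - T.card := Finset.card_sdiff_of_subset hTB
      have h2 : A.card = (U.filter fun e => e ∉ P l).card + (S.filter fun e => e ∈ P l).card := by
        have h3 : A = (U.filter fun e => e ∉ P l) ∪ (S.filter fun e => e ∈ P l) := by
          rw [hA]
          ext x
          simp only [Finset.mem_union, Finset.mem_filter]
          constructor
          · rintro (h | h)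
            · by_cases hx : x ∈ P l
              · exact Or.inr ⟨hUS h, hx⟩
              · exact Or.inl ⟨h, hx⟩
            · exact Or.inr h
          · rintro (h | h)
            · exact Or.inl h.1
            · exact Or.inr h
        rw [h3]
        refine Finset.card_union_of_disjoint ?_
        rw [Finset.disjoint_left]
        intro x hx hx'
        exact (Finset.mem_filter.1 hx).2 (Finset.mem_filter.1 hx').2
      have h4 : (P l).card = B.card + (S.filter fun e => e ∈ P l).card := by
        have h5 : P l = B ∪ S.filter fun e => e ∈ P l := by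
          ext x
          rw [Finset.mem_union, Finset.mem_filter]
          constructor
          · intro hx
            rcases Finset.mem_union.1 (hPU l hx) with h | h
            · exact Or.inl h
            · exact Or.inr ⟨h, hx⟩
          · rintro (h | h)
            · exact hBP l h
            · exact h.2
        conv_lhs => rw [h5]
        refine Finset.card_union_of_disjoint ?_
        exact Finset.disjoint_of_subset_right (Finset.filter_subset _ _) hBS
      have h6 := Finset.card_le_card hTB
      omega
    · rw [hBT, Finset.union_comm]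
      exact (hI l).sub _ _ hi0 (Finset.union_subset_union subset_rfl hTT)
    · rw [hBT, Finset.card_union_of_disjoint hAT]
      omega
  choose Y hYB hYc hYi hYcard using hY
  refine ⟨P, U, Y, hBP, hPU, hPi, hUS, hl, hYB, hYc, fun l => ?_, ?_, ?_⟩
  · refine (hI l).sub _ _ (hYi l) ?_
    exact Finset.union_subset_union subset_rfl Finset.subset_union_left
  · -- disjointness
    have key : ∀ l, ∀ y ∈ Y l, ∃ e ∈ U, e ∉ P l ∧ I l (insert e ((P l).erase y)) := by
      intro l y hy
      have hyB := hYB l hy
      obtain ⟨e, he, heP, hi⟩ := (hI l).aug ((P l).erase y)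
        ((B \ Y l) ∪ (U ∪ S.filter fun e => e ∈ P l))
        ((hI l).sub _ _ (hPi l) (Finset.erase_subset _ _)) (hYi l) (by
          rw [hYcard l]
          exact Finset.card_erase_lt_of_mem (hBP l hyB))
      have hey : e ≠ y := by
        rintro rfl
        rcases Finset.mem_union.1 he with h | h
        · exact (Finset.mem_sdiff.1 h).2 hy
        · have h2 : e ∈ S := by
            rcases Finset.mem_union.1 h with h | h
            · exact hUS h
            · exact (Finset.mem_filter.1 h).1
          exact Finset.disjoint_left.1 hBS hyB h2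
      have heP' : e ∉ P l := fun h => heP (Finset.mem_erase.2 ⟨hey, h⟩)
      refine ⟨e, ?_, heP', hi⟩
      rcases Finset.mem_union.1 he with h | h
      · exact absurd (hBP l (Finset.mem_sdiff.1 h).1) heP'
      · rcases Finset.mem_union.1 h with h | h
        · exact h
        · exact absurd (Finset.mem_filter.1 h).2 heP'
    intro l m hlm
    rw [Finset.disjoint_left]
    intro y hyl hym
    obtain ⟨e, heU, heP, hei⟩ := key l y hyl
    obtain ⟨e', heU', heP', hei'⟩ := key m y hym
    have heall : ∀ i, i ≠ l → e ∈ P i := by
      obtain ⟨l', h1, h2⟩ := hl e heU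
      have : l' = l := by
        by_contra h3
        exact heP (h2 l fun h => h3 h.symm)
      subst this
      exact h2
    have heall' : ∀ i, i ≠ m → e' ∈ P i := by
      obtain ⟨l', h1, h2⟩ := hl e' heU'
      have : l' = m := by
        by_contra h3
        exact heP' (h2 m fun h => h3 h.symm)
      subst this
      exact h2
    have hne : e ≠ e' := by
      rintro rfl
      exact heP' (heall m hlm.symm)
    have hyB := hYB l hyl
    have hyS : ∀ x ∈ S, x ≠ y := by
      rintro x hx rfl
      exact Finset.disjoint_left.1 hBS hyB hx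
    apply hno
    refine ⟨{e, e'}, ?_, ?_, {y}, by simpa using hyB, ?_, fun i => ?_⟩
    · intro x hx
      rw [Finset.mem_insert, Finset.mem_singleton] at hx
      rcases hx with rfl | rfl
      · exact hUS heU
      · exact hUS heU'
    · rw [Finset.card_pair hne]
      exact hs
    · rw [Finset.card_pair hne, Finset.card_singleton]
      omega
    · by_cases hil : i = l
      · subst hil
        refine (hI i).sub _ _ hei ?_
        intro x hx
        rw [Finset.mem_union, Finset.mem_sdiff, Finset.mem_singleton, Finset.mem_insert,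
          Finset.mem_singleton] at hx
        rw [Finset.mem_insert, Finset.mem_erase]
        rcases hx with hx | rfl | rfl
        · exact Or.inr ⟨hx.2, hBP i hx.1⟩
        · exact Or.inl rfl
        · exact Or.inr ⟨hyS _ (hUS heU'), heall' i hlm⟩
      · by_cases him : i = m
        · subst him
          refine (hI i).sub _ _ hei' ?_
          intro x hx
          rw [Finset.mem_union, Finset.mem_sdiff, Finset.mem_singleton, Finset.mem_insert,
            Finset.mem_singleton] at hx
          rw [Finset.mem_insert, Finset.mem_erase]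
          rcases hx with hx | rfl | rfl
          · exact Or.inr ⟨hx.2, hBP i hx.1⟩
          · exact Or.inr ⟨hyS _ (hUS heU), heall i hil⟩
          · exact Or.inl rfl
        · refine (hI i).sub _ _ (hPi i) ?_
          intro x hx
          rw [Finset.mem_union, Finset.mem_sdiff, Finset.mem_singleton, Finset.mem_insert,
            Finset.mem_singleton] at hx
          rcases hx with hx | rfl | rfl
          · exact hBP i hx.1
          · exact heall i hil
          · exact heall' i him
  · exact hU.trans (Nat.add_le_add_left hsum _)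

end Pool.Agent.Helper91.LS
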