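import Pool.Agent.Helper91.LS.Exch

/-!
# Lifting of exchanges (helper91)
-/

set_option autoImplicit false
set_option linter.unusedSectionVars false

namespace Pool.Agent.Helper91.LS

variable {E : Type} [Fintype E] [DecidableEq E]

theorem lift {k : ℕ} (I : Fin k → Finset E → Prop) (hI : ∀ l, Ind (I l)) {B S : Finset E}
    (hBS : Disjoint B S) {P : Fin k → Finset E} {U : Finset E} {Y : Fin k → Finset E}
    (hBP : ∀ l, B ⊆ P l) (hPi : ∀ l, I l (P l)) (hUS : U ⊆ S)
    (hl : ∀ e ∈ U, ∃ l, e ∉ P l ∧ ∀ m, m ≠ l → e ∈ P m)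
    (hYB : ∀ l, Y l ⊆ B) (hYc : ∀ l, (Y l).card = (U.filter fun e => e ∉ P l).card)
    (hYi : ∀ l, I l ((B \ Y l) ∪ U)) (hYd : ∀ l m, l ≠ m → Disjoint (Y l) (Y m))
    {Yt : Finset E} (hYt : Yt = Finset.univ.biUnion Y)
    {X W : Finset E} (hX : X ⊆ S \ U) (hW : W ⊆ B \ Yt) (hWX : W.card < X.card)
    (hi : ∀ l, I l ((((B \ Yt) \ W) ∪ X) ∪ U)) : Imp I B S ((2 * k + 1) * X.card) := by
  classical
  have hYtB : Yt ⊆ B := by
    rw [hYt, Finset.biUnion_subset]
    exact fun l _ => hYB l
  have hYY : ∀ l, Y l ⊆ Yt := fun l => by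
    rw [hYt]
    exact Finset.subset_biUnion_of_mem Y (Finset.mem_univ l)
  have hXS : X ⊆ S := hX.trans Finset.sdiff_subset
  have hXU : Disjoint X U := by
    rw [Finset.disjoint_left]
    exact fun x hx hxU => (Finset.mem_sdiff.1 (hX hx)).2 hxU
  have hBU : ∀ x ∈ B, x ∉ U := fun x hx hxU => Finset.disjoint_left.1 hBS hx (hUS hxU)
  have hBX : ∀ x ∈ B, x ∉ X := fun x hx hxX => Finset.disjoint_left.1 hBS hx (hXS hxX)
  have hcB1 : ((B \ Yt) \ W).card + Yt.card + W.card = B.card := by
    have h1 := Finset.card_sdiff_add_card_eq_card hYtB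
    have h2 := Finset.card_sdiff_add_card_eq_card hW
    omega
  have hWB : W ⊆ B := hW.trans Finset.sdiff_subset
  -- (i)
  have hR : ∀ l, ∃ R : Finset E, R ⊆ Yt ∧ R.card ≤ X.card ∧
      I l (((B \ W) \ R) ∪ X ∪ U.filter fun e => e ∈ P l) := by
    intro l
    obtain ⟨T, hT, hTi, hTc⟩ := (hI l).ext (A := (((B \ Yt) \ W) ∪ X) ∪ U.filter fun e => e ∈ P l)
      (B := (B \ W) ∪ U.filter fun e => e ∈ P l)
      ((hI l).sub _ _ (hi l) (Finset.union_subset_union subset_rfl (Finset.filter_subset _ _)))
      ((hI l).sub _ _ (hPi l) (Finset.union_subset (Finset.sdiff_subset.trans (hBP l))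
        (fun x hx => (Finset.mem_filter.1 hx).2)))
    have hTY : T ⊆ Yt := by
      intro x hx
      have h1 := Finset.mem_sdiff.1 (hT hx)
      rcases Finset.mem_union.1 h1.1 with h2 | h2
      · by_contra h3
        have h4 := Finset.mem_sdiff.1 h2
        exact h1.2 (Finset.mem_union_left _ (Finset.mem_union_left _
          (Finset.mem_sdiff.2 ⟨Finset.mem_sdiff.2 ⟨h4.1, h3⟩, h4.2⟩)))
      · exact absurd (Finset.mem_union_right _ h2) h1.2
    refine ⟨Yt \ T, Finset.sdiff_subset, ?_, (hI l).sub _ _ hTi ?_⟩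
    · have h1 : (Yt \ T).card = Yt.card - T.card := Finset.card_sdiff_of_subset hTY
      have h2 : ((B \ W) ∪ U.filter fun e => e ∈ P l).card =
          (B \ W).card + (U.filter fun e => e ∈ P l).card := by
        refine Finset.card_union_of_disjoint ?_
        rw [Finset.disjoint_left]
        exact fun x hx hxU => hBU x (Finset.mem_sdiff.1 hx).1 (Finset.mem_filter.1 hxU).1
      have h3 := Finset.card_sdiff_add_card_eq_card hWB
      have h4 := Finset.card_union_le (((B \ Yt) \ W) ∪ X) (U.filter fun e => e ∈ P l)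
      have h5 := Finset.card_union_le ((B \ Yt) \ W) X
      omega
    · intro x hx
      simp only [Finset.mem_union, Finset.mem_sdiff] at hx ⊢
      rcases hx with (⟨⟨h1, h2⟩, h3⟩ | h1) | h1
      · by_cases h4 : x ∈ Yt
        · refine Or.inr ?_
          by_contra h5
          exact h3 ⟨h4, h5⟩
        · exact Or.inl (Or.inl (Or.inl ⟨⟨h1, h4⟩, h2⟩))
      · exact Or.inl (Or.inl (Or.inr h1))
      · exact Or.inl (Or.inr h1)
  choose R hRY hRc hRi using hR
  -- (ii)
  have hR' : ∀ l, ∃ R : Finset E, R ⊆ Yt ∧ R.card ≤ X.card ∧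
      I l ((((B \ Y l) \ W) \ R) ∪ U ∪ X) := by
    intro l
    obtain ⟨T, hT, hTi, hTc⟩ := (hI l).ext (A := (((B \ Yt) \ W) ∪ X) ∪ U)
      (B := ((B \ Y l) \ W) ∪ U) (hi l)
      ((hI l).sub _ _ (hYi l) (Finset.union_subset_union Finset.sdiff_subset subset_rfl))
    have hTY : T ⊆ Yt \ Y l := by
      intro x hx
      have h1 := Finset.mem_sdiff.1 (hT hx)
      rcases Finset.mem_union.1 h1.1 with h2 | h2
      · have h4 := Finset.mem_sdiff.1 h2
        have h5 := Finset.mem_sdiff.1 h4.1
        refine Finset.mem_sdiff.2 ⟨?_, h5.2⟩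
        by_contra h3
        exact h1.2 (Finset.mem_union_left _ (Finset.mem_union_left _
          (Finset.mem_sdiff.2 ⟨Finset.mem_sdiff.2 ⟨h5.1, h3⟩, h4.2⟩)))
      · exact absurd (Finset.mem_union_right _ h2) h1.2
    refine ⟨(Yt \ Y l) \ T, Finset.sdiff_subset.trans Finset.sdiff_subset, ?_,
      (hI l).sub _ _ hTi ?_⟩
    · have h1 : ((Yt \ Y l) \ T).card = (Yt \ Y l).card - T.card := Finset.card_sdiff_of_subset hTY
      have h2 : (((B \ Y l) \ W) ∪ U).card = ((B \ Y l) \ W).card + U.card := by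
        refine Finset.card_union_of_disjoint ?_
        rw [Finset.disjoint_left]
        exact fun x hx hxU => hBU x (Finset.mem_sdiff.1 (Finset.mem_sdiff.1 hx).1).1 hxU
      have h3 := Finset.card_sdiff_add_card_eq_card (hYB l)
      have h3' := Finset.card_sdiff_add_card_eq_card (hYY l)
      have h3'' : W ⊆ B \ Y l := fun x hx => by
        have := Finset.mem_sdiff.1 (hW hx)
        exact Finset.mem_sdiff.2 ⟨this.1, fun h => this.2 (hYY l h)⟩
      have h6 := Finset.card_sdiff_add_card_eq_card h3''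
      have h4 := Finset.card_union_le (((B \ Yt) \ W) ∪ X) U
      have h5 := Finset.card_union_le ((B \ Yt) \ W) X
      omega
    · intro x hx
      simp only [Finset.mem_union, Finset.mem_sdiff] at hx ⊢
      rcases hx with (⟨⟨⟨h1, h6⟩, h2⟩, h3⟩ | h1) | h1
      · by_cases h4 : x ∈ Yt
        · refine Or.inr ?_
          by_contra h5
          exact h3 ⟨⟨h4, h6⟩, h5⟩
        · exact Or.inl (Or.inl (Or.inl ⟨⟨h1, h4⟩, h2⟩))
      · exact Or.inl (Or.inr h1)
      · exact Or.inl (Or.inl (Or.inr h1))
  choose R' hRY' hRc' hRi' using hR'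
  set Y' : Finset E := (Finset.univ.biUnion R) ∪ (Finset.univ.biUnion R') with hY'
  have hY't : Y' ⊆ Yt := by
    refine Finset.union_subset ?_ ?_
    · rw [Finset.biUnion_subset]
      exact fun l _ => hRY l
    · rw [Finset.biUnion_subset]
      exact fun l _ => hRY' l
  have hRl : ∀ l, R l ⊆ Y' := fun l =>
    (Finset.subset_biUnion_of_mem R (Finset.mem_univ l)).trans Finset.subset_union_left
  have hRl' : ∀ l, R' l ⊆ Y' := fun l =>
    (Finset.subset_biUnion_of_mem R' (Finset.mem_univ l)).trans Finset.subset_union_right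
  have hY'c : Y'.card ≤ 2 * k * X.card := by
    have h1 : (Finset.univ.biUnion R).card ≤ k * X.card := by
      refine (Finset.card_biUnion_le_card_mul _ _ X.card fun l _ => hRc l).trans (by simp)
    have h2 : (Finset.univ.biUnion R').card ≤ k * X.card := by
      refine (Finset.card_biUnion_le_card_mul _ _ X.card fun l _ => hRc' l).trans (by simp)
    have h3 := Finset.card_union_le (Finset.univ.biUnion R) (Finset.univ.biUnion R')
    rw [hY']
    nlinarith
  -- (iii)
  have hX' : ∀ l, ∃ X' : Finset E, X' ⊆ (U.filter fun e => e ∉ P l) ∧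
      X'.card = (Y l ∩ Y').card ∧
      I l ((((B \ W) \ Y') ∪ X ∪ U.filter fun e => e ∈ P l) ∪ X') := by
    intro l
    have hQ : I l (((B \ W) \ Y') ∪ X ∪ U.filter fun e => e ∈ P l) :=
      (hI l).sub _ _ (hRi l) (Finset.union_subset_union (Finset.union_subset_union
        (Finset.sdiff_subset_sdiff subset_rfl (hRl l)) subset_rfl) subset_rfl)
    have hZ : I l ((((B \ Y l) \ W) \ Y') ∪ U ∪ X) :=
      (hI l).sub _ _ (hRi' l) (Finset.union_subset_union (Finset.union_subset_union
        (Finset.sdiff_subset_sdiff subset_rfl (hRl' l)) subset_rfl) subset_rfl)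
    obtain ⟨T, hT, hTi, hTc⟩ := (hI l).ext hQ hZ
    have hTU : T ⊆ U.filter fun e => e ∉ P l := by
      intro x hx
      have h1 := Finset.mem_sdiff.1 (hT hx)
      simp only [Finset.mem_union, Finset.mem_sdiff, Finset.mem_filter, not_or] at h1 ⊢
      rcases h1.1 with (⟨⟨⟨h2, h3⟩, h4⟩, h5⟩ | h2) | h2
      · exact absurd ⟨⟨h2, h4⟩, h5⟩ h1.2.1.1
      · exact ⟨h2, fun h3 => h1.2.2 ⟨h2, h3⟩⟩
      · exact absurd h2 h1.2.1.2
    have hcard : (Y l ∩ Y').card ≤ T.card := by
      have c1 : ((((B \ Y l) \ W) \ Y') ∪ U ∪ X).card =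
          (((B \ Y l) \ W) \ Y').card + U.card + X.card := by
        rw [Finset.card_union_of_disjoint, Finset.card_union_of_disjoint]
        · rw [Finset.disjoint_left]
          exact fun x hx hxU => hBU x
            (Finset.mem_sdiff.1 (Finset.mem_sdiff.1 (Finset.mem_sdiff.1 hx).1).1).1 hxU
        · rw [Finset.disjoint_left]
          intro x hx hxX
          rcases Finset.mem_union.1 hx with h | h
          · exact hBX x
              (Finset.mem_sdiff.1 (Finset.mem_sdiff.1 (Finset.mem_sdiff.1 h).1).1).1 hxX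
          · exact Finset.disjoint_left.1 hXU hxX h
      have c2 : (((B \ W) \ Y') ∪ X ∪ U.filter fun e => e ∈ P l).card ≤
          ((B \ W) \ Y').card + X.card + (U.filter fun e => e ∈ P l).card :=
        (Finset.card_union_le _ _).trans (Nat.add_le_add_right (Finset.card_union_le _ _) _)
      have c3 : ((B \ W) \ Y').card = (((B \ Y l) \ W) \ Y').card + (Y l \ Y').card := by
        rw [← Finset.card_union_of_disjoint]
        · congr 1
          ext x
          simp only [Finset.mem_union, Finset.mem_sdiff]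
          constructor
          · rintro ⟨⟨h1, h2⟩, h3⟩
            by_cases h4 : x ∈ Y l
            · exact Or.inr ⟨h4, h3⟩
            · exact Or.inl ⟨⟨⟨h1, h4⟩, h2⟩, h3⟩
          · rintro (⟨⟨⟨h1, h4⟩, h2⟩, h3⟩ | ⟨h1, h2⟩)
            · exact ⟨⟨h1, h2⟩, h3⟩
            · exact ⟨⟨hYB l h1, fun h3 => (Finset.mem_sdiff.1 (hW h3)).2 (hYY l h1)⟩, h2⟩
        · rw [Finset.disjoint_left]
          intro x hx hx'
          exact (Finset.mem_sdiff.1 (Finset.mem_sdiff.1 (Finset.mem_sdiff.1 hx).1).1).2
            (Finset.mem_sdiff.1 hx').1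
      have c4 : (U.filter fun e => e ∈ P l).card + (U.filter fun e => e ∉ P l).card = U.card :=
        Finset.card_filter_add_card_filter_not _
      have c5 : (Y l \ Y').card + (Y l ∩ Y').card = (Y l).card :=
        Finset.card_sdiff_add_card_inter _ _
      have c6 := hYc l
      omega
    obtain ⟨X', hX', hX'c⟩ := Finset.exists_subset_card_eq hcard
    exact ⟨X', hX'.trans hTU, hX'c, (hI l).sub _ _ hTi
      (Finset.union_subset_union subset_rfl hX')⟩
  choose X' hX'U hX'c hX'i using hX'
  have hX't : (Finset.univ.biUnion X').card = Y'.card := by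
    rw [Finset.card_biUnion]
    · have h1 : Y' = Finset.univ.biUnion fun l => Y l ∩ Y' := by
        ext x
        rw [Finset.mem_biUnion]
        constructor
        · intro hx
          have h2 := hY't hx
          rw [hYt, Finset.mem_biUnion] at h2
          obtain ⟨l, hl', hxl⟩ := h2
          exact ⟨l, hl', Finset.mem_inter.2 ⟨hxl, hx⟩⟩
        · rintro ⟨l, -, hx⟩
          exact (Finset.mem_inter.1 hx).2
      have h2 : Y'.card = ∑ l, (Y l ∩ Y').card := by
        conv_lhs => rw [h1]
        refine Finset.card_biUnion fun l _ m _ hlm => ?_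
        exact Finset.disjoint_of_subset_left Finset.inter_subset_left
          (Finset.disjoint_of_subset_right Finset.inter_subset_left (hYd l m hlm))
      rw [h2]
      exact Finset.sum_congr rfl fun l _ => hX'c l
    · intro l _ m _ hlm
      refine Finset.disjoint_left.2 ?_
      intro x hx hx'
      have h1 := Finset.mem_filter.1 (hX'U l hx)
      have h2 := Finset.mem_filter.1 (hX'U m hx')
      obtain ⟨i, h3, h4⟩ := hl x h1.1
      have h5 : l = i := by
        by_contra h
        exact h1.2 (h4 l h)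
      have h6 : m = i := by
        by_contra h
        exact h2.2 (h4 m h)
      exact hlm (h5.trans h6.symm)
  have hX'UU : Finset.univ.biUnion X' ⊆ U := by
    rw [Finset.biUnion_subset]
    exact fun l _ => (hX'U l).trans (Finset.filter_subset _ _)
  have hXt : (X ∪ Finset.univ.biUnion X').card = X.card + Y'.card := by
    rw [Finset.card_union_of_disjoint (Finset.disjoint_of_subset_right hX'UU hXU), hX't]
  refine ⟨X ∪ Finset.univ.biUnion X', Finset.union_subset hXS (hX'UU.trans hUS), ?_,
    W ∪ Y', Finset.union_subset hWB (hY't.trans hYtB), ?_, fun l => ?_⟩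
  · rw [hXt]
    calc X.card + Y'.card ≤ X.card + 2 * k * X.card := Nat.add_le_add_left hY'c _
      _ = (2 * k + 1) * X.card := by ring
  · rw [hXt]
    have := Finset.card_union_le W Y'
    omega
  · refine (hI l).sub _ _ (hX'i l) ?_
    intro x hx
    simp only [Finset.mem_union, Finset.mem_sdiff, Finset.mem_biUnion, Finset.mem_univ, true_and,
      Finset.mem_filter, not_or] at hx ⊢
    rcases hx with ⟨h1, h2, h3⟩ | h1 | ⟨m, h1⟩
    · exact Or.inl (Or.inl (Or.inl ⟨⟨h1, h2⟩, h3⟩))
    · exact Or.inl (Or.inl (Or.inr h1))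
    · by_cases hml : m = l
      · subst hml
        exact Or.inr h1
      · have h2 := Finset.mem_filter.1 (hX'U m h1)
        obtain ⟨i, h3, h4⟩ := hl x h2.1
        have h5 : m = i := by
          by_contra h
          exact h2.2 (h4 m h)
        subst h5
        exact Or.inl (Or.inr ⟨h2.1, h4 l fun h => hml h.symm⟩)

end Pool.Agent.Helper91.LS
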