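import Pool.Agent.Helper91.LS.Lift

/-!
# Local search for the intersection of `k` matroids: the recursion and the final form (helper91)
-/

set_option autoImplicit false
set_option linter.unusedSectionVars false

namespace Pool.Agent.Helper91.LS

theorem Imp.mono {k : ℕ} {E : Type} [Fintype E] [DecidableEq E] {I : Fin k → Finset E → Prop}
    {B S : Finset E} {s t : ℕ} (h : Imp I B S s) (hst : s ≤ t) : Imp I B S t := by
  obtain ⟨X, h1, h2, h3⟩ := h
  exact ⟨X, h1, h2.trans hst, h3⟩

theorem step {k : ℕ} (hk : 2 ≤ k) {d : ℝ} (hd : 0 < d) {s : ℕ} (hs : 2 ≤ s)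
    (h : LS k d s) : LS k (d / (1 + 2 * d)) ((2 * k + 1) * s) := by
  intro E _ _ I hI B S hBS hB hS hlt
  classical
  by_contra hno
  obtain ⟨P, U, Y, hBP, hPU, hPi, hUS, hl, hYB, hYc, hYi, hYd, hc⟩ :=
    step_data I hI hBS hB hS (s := (2 * k + 1) * s) (by nlinarith) hno
  have hYt : (Finset.univ.biUnion Y).card = U.card := by
    rw [Finset.card_biUnion (fun l _ m _ hlm => hYd l m hlm)]
    have h1 : U = Finset.univ.biUnion fun l => U.filter fun e => e ∉ P l := by
      ext x
      rw [Finset.mem_biUnion]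
      constructor
      · intro hx
        obtain ⟨l, h2, -⟩ := hl x hx
        exact ⟨l, Finset.mem_univ l, Finset.mem_filter.2 ⟨hx, h2⟩⟩
      · rintro ⟨l, -, hx⟩
        exact (Finset.mem_filter.1 hx).1
    have h2 : U.card = ∑ l, (U.filter fun e => e ∉ P l).card := by
      conv_lhs => rw [h1]
      refine Finset.card_biUnion fun l _ m _ hlm => ?_
      refine Finset.disjoint_left.2 ?_
      intro x hx hx'
      have h1 := Finset.mem_filter.1 hx
      have h2 := Finset.mem_filter.1 hx'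
      obtain ⟨i, h3, h4⟩ := hl x h1.1
      have h5 : l = i := by
        by_contra h
        exact h1.2 (h4 l h)
      have h6 : m = i := by
        by_contra h
        exact h2.2 (h4 m h)
      exact hlm (h5.trans h6.symm)
    rw [h2]
    exact Finset.sum_congr rfl fun l _ => hYc l
  have hYtB : Finset.univ.biUnion Y ⊆ B := by
    rw [Finset.biUnion_subset]
    exact fun l _ => hYB l
  have hB1 : (B \ Finset.univ.biUnion Y).card = B.card - (Finset.univ.biUnion Y).card :=
    Finset.card_sdiff_of_subset hYtB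
  have hS1 : (S \ U).card = S.card - U.card := Finset.card_sdiff_of_subset hUS
  have hYc' := Finset.card_le_card hYtB
  have hUc := Finset.card_le_card hUS
  by_cases hcase : ((k : ℝ) / 2 + d) * (B \ Finset.univ.biUnion Y).card < (S \ U).card
  · have hBi : ∀ l, Disjoint (B \ Finset.univ.biUnion Y) U ∧
        I l ((B \ Finset.univ.biUnion Y) ∪ U) := fun l =>
      ⟨Finset.disjoint_of_subset_left Finset.sdiff_subset
        (Finset.disjoint_of_subset_right hUS hBS),
       (hI l).sub _ _ (hYi l) (Finset.union_subset_union (Finset.sdiff_subset_sdiff subset_rfl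
        (Finset.subset_biUnion_of_mem Y (Finset.mem_univ l))) subset_rfl)⟩
    have hSi : ∀ l, Disjoint (S \ U) U ∧ I l ((S \ U) ∪ U) := fun l =>
      ⟨Finset.sdiff_disjoint, by
        rw [Finset.sdiff_union_of_subset hUS]
        exact hS l⟩
    obtain ⟨X, hX, hXs, W, hW, hWX, hi⟩ := h E (fun l J => Disjoint J U ∧ I l (J ∪ U))
      (fun l => (hI l).contract U) (B \ Finset.univ.biUnion Y) (S \ U)
      (Finset.disjoint_of_subset_left Finset.sdiff_subset
        (Finset.disjoint_of_subset_right Finset.sdiff_subset hBS)) hBi hSi hcase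
    exact hno ((lift I hI hBS hBP hPi hUS hl hYB hYc hYi hYd rfl hX hW hWX
      (fun l => (hi l).2)).mono (Nat.mul_le_mul_left _ hXs))
  · rw [not_lt] at hcase
    have e1 : ((B \ Finset.univ.biUnion Y).card : ℝ) = B.card - U.card := by
      rw [hB1, hYt, Nat.cast_sub (by omega)]
    have e2 : ((S \ U).card : ℝ) = S.card - U.card := by
      rw [hS1, Nat.cast_sub hUc]
    rw [e1, e2] at hcase
    have hc' : 2 * (S.card : ℝ) ≤ U.card + k * B.card := by exact_mod_cast hc
    have hk' : (2 : ℝ) ≤ k := by exact_mod_cast hk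
    have hb : (0 : ℝ) ≤ B.card := Nat.cast_nonneg _
    have hq : d / (1 + 2 * d) * (1 + 2 * d) = d := div_mul_cancel₀ _ (by positivity)
    have hq0 : 0 ≤ d / (1 + 2 * d) := by positivity
    generalize d / (1 + 2 * d) = q at hlt hq hq0
    generalize (B.card : ℝ) = b at *
    generalize (S.card : ℝ) = t at *
    generalize (U.card : ℝ) = n at *
    have h1 : (0 : ℝ) ≤ (k : ℝ) / 2 + d - 1 := by linarith
    have h2 : (0 : ℝ) ≤ n - (2 * t - k * b) := by linarith
    have hA : t * (k - 1 + 2 * d) ≤ ((k : ℝ) / 2 * (k - 1) + d * (1 + k)) * b := by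
      nlinarith [mul_nonneg h1 h2]
    have hpos : (0 : ℝ) < k - 1 + 2 * d := by linarith
    have hB' := mul_lt_mul_of_pos_right hlt hpos
    have hC : 0 ≤ q * (k - 2) * b := mul_nonneg (mul_nonneg hq0 (by linarith)) hb
    have hD : q * (1 + 2 * d) * b = d * b := by rw [hq]
    nlinarith

theorem base {k : ℕ} : LS k ((k : ℝ) / 2) 2 := by
  intro E _ _ I hI B S hBS hB hS hlt
  by_contra hno
  obtain ⟨P, U, Y, -, -, -, hUS, -, -, -, -, -, hc⟩ :=
    step_data I hI hBS hB hS (s := 2) le_rfl hno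
  have hUc := Finset.card_le_card hUS
  have h1 : S.card ≤ k * B.card := by omega
  have h2 : (S.card : ℝ) ≤ k * B.card := by exact_mod_cast h1
  linarith

theorem iter {k : ℕ} (hk : 2 ≤ k) (n : ℕ) :
    ∃ s : ℕ, 2 ≤ s ∧ LS k (1 / (2 * (n : ℝ) + 2 / k)) s := by
  have hk0 : (0 : ℝ) < k := by
    have : 0 < k := by omega
    exact_mod_cast this
  induction n with
  | zero =>
    refine ⟨2, le_rfl, ?_⟩
    have h1 : (1 : ℝ) / (2 * ((0 : ℕ) : ℝ) + 2 / k) = (k : ℝ) / 2 := by
      rw [Nat.cast_zero, mul_zero, zero_add, one_div_div]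
    rw [h1]
    exact base
  | succ n ih =>
    obtain ⟨s, hs, h⟩ := ih
    have hpos : (0 : ℝ) < 2 * (n : ℝ) + 2 / k := by positivity
    refine ⟨(2 * k + 1) * s, by nlinarith, ?_⟩
    have h1 := step hk (by positivity) hs h
    have h2 : (1 : ℝ) / (2 * (n : ℝ) + 2 / k) / (1 + 2 * (1 / (2 * (n : ℝ) + 2 / k))) =
        1 / (2 * ((n + 1 : ℕ) : ℝ) + 2 / k) := by
      have h3 : (2 : ℝ) * ((n + 1 : ℕ) : ℝ) + 2 / k = (2 * (n : ℝ) + 2 / k) + 2 := by
        push_cast
        ring
      rw [h3]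
      generalize 2 * (n : ℝ) + 2 / k = y at hpos
      have h4 : y + 2 ≠ 0 := by positivity
      field_simp
    rw [h2] at h1
    exact h1

theorem ls_mono {k : ℕ} {d d' : ℝ} {s : ℕ} (h : LS k d s) (hdd : d ≤ d') : LS k d' s := by
  intro E _ _ I hI B S hBS hB hS hlt
  refine h E I hI B S hBS hB hS (lt_of_le_of_lt ?_ hlt)
  exact mul_le_mul_of_nonneg_right (by linarith) (Nat.cast_nonneg _)

theorem exists_LS {k : ℕ} (hk : 2 ≤ k) {d : ℝ} (hd : 0 < d) : ∃ s : ℕ, 2 ≤ s ∧ LS k d s := by
  obtain ⟨n, hn⟩ := exists_nat_gt (1 / d)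
  obtain ⟨s, hs, h⟩ := iter hk n
  refine ⟨s, hs, ls_mono h ?_⟩
  have hk0 : (0 : ℝ) < k := by
    have : 0 < k := by omega
    exact_mod_cast this
  have h1 : (0 : ℝ) < 1 / d := by positivity
  have h2 : (0 : ℝ) < 2 / (k : ℝ) := by positivity
  rw [one_div_le (by linarith) hd]
  linarith

/-- **Local search** for the intersection of `k ≥ 2` matroids: exchanges adding at most `s(k, d)`
elements reach the ratio `k / 2 + d`. -/
theorem local_search {k : ℕ} (hk : 2 ≤ k) {d : ℝ} (hd : 0 < d) :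
    ∃ s : ℕ, 1 ≤ s ∧ ∀ (E : Type) [Fintype E] [DecidableEq E] (M : Fin k → Matroid E)
      (B S : Finset E), (∀ i, (M i).Indep B) → (∀ i, (M i).Indep S) →
      ((k : ℝ) / 2 + d) * B.card < S.card →
      ∃ X : Finset E, X ⊆ S \ B ∧ X.card ≤ s ∧
        ∃ B' : Finset E, B' ⊆ B ∪ X ∧ (∀ i, (M i).Indep B') ∧ B.card < B'.card := by
  obtain ⟨s, hs, h⟩ := exists_LS hk hd
  refine ⟨s, by omega, ?_⟩
  intro E _ _ M B S hB hS hlt
  have hI : ∀ i, Ind fun J : Finset E => (M i).Indep (J : Set E) := fun i =>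
    { sub := fun A B hB hAB => hB.subset (Finset.coe_subset.2 hAB)
      aug := fun A B hA hB hlt => by
        obtain ⟨e, he, heA, hi⟩ := hA.augment_finset hB hlt
        refine ⟨e, he, heA, ?_⟩
        rw [Finset.coe_insert]
        exact hi }
  have hBc : (B \ S).card + (B ∩ S).card = B.card := Finset.card_sdiff_add_card_inter _ _
  have hSc : (S \ B).card + (B ∩ S).card = S.card := by
    rw [Finset.inter_comm]
    exact Finset.card_sdiff_add_card_inter _ _
  have hk' : (2 : ℝ) ≤ k := by exact_mod_cast hk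
  have hlt' : ((k : ℝ) / 2 + d) * (B \ S).card < (S \ B).card := by
    have h1 : (B.card : ℝ) = (B \ S).card + (B ∩ S).card := by exact_mod_cast hBc.symm
    have h2 : (S.card : ℝ) = (S \ B).card + (B ∩ S).card := by exact_mod_cast hSc.symm
    rw [h1, h2] at hlt
    have h3 : (0 : ℝ) ≤ ((k : ℝ) / 2 + d - 1) * (B ∩ S).card :=
      mul_nonneg (by linarith) (Nat.cast_nonneg _)
    nlinarith
  obtain ⟨X, hX, hXs, W, hW, hWX, hi⟩ := h E
    (fun i (J : Finset E) => Disjoint J (B ∩ S) ∧ (M i).Indep ((J ∪ (B ∩ S) : Finset E) : Set E))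
    (fun i => (hI i).contract (B ∩ S)) (B \ S) (S \ B)
    (Finset.disjoint_of_subset_right Finset.sdiff_subset Finset.sdiff_disjoint)
    (fun i => ⟨Finset.disjoint_of_subset_right Finset.inter_subset_right Finset.sdiff_disjoint, by
      rw [Finset.sdiff_union_inter]
      exact hB i⟩)
    (fun i => ⟨Finset.disjoint_of_subset_right Finset.inter_subset_left Finset.sdiff_disjoint, by
      rw [Finset.inter_comm, Finset.sdiff_union_inter]
      exact hS i⟩) hlt'
  refine ⟨X, hX, hXs, (B \ W) ∪ X, Finset.union_subset_union Finset.sdiff_subset subset_rfl,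
    fun i => ?_, ?_⟩
  · refine (hi i).2.subset (Finset.coe_subset.2 ?_)
    intro x hx
    simp only [Finset.mem_union, Finset.mem_sdiff, Finset.mem_inter] at hx ⊢
    rcases hx with ⟨h1, h2⟩ | h1
    · by_cases h3 : x ∈ S
      · exact Or.inr ⟨h1, h3⟩
      · exact Or.inl (Or.inl ⟨⟨h1, h3⟩, h2⟩)
    · exact Or.inl (Or.inr h1)
  · have hWB : W ⊆ B := hW.trans Finset.sdiff_subset
    have h1 := Finset.card_sdiff_add_card_eq_card hWB
    rw [Finset.card_union_of_disjoint]
    · omega
    · rw [Finset.disjoint_left]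
      intro x hx hxX
      exact (Finset.mem_sdiff.1 (hX hxX)).2 (Finset.mem_sdiff.1 hx).1

end Pool.Agent.Helper91.LS
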